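import Mathlib
import Pool.Prelude.Def_F_b1b78ff3
import Pool.Agent.TH59.WX.PG

/-!
# Extensions of realizable groups by direct products of wreath products `G ≀ S_n`

Let `G i` be finitely many nontrivial finite groups with trivial centre such that the inner
automorphisms of `G i` have a complement in `Aut(G i)` (for example complete groups, or `A_m` with
`m ≥ 4`, `m ≠ 6`), and let `n i ≥ ((3|G i| + 2)!)^3`.  Let `X` be ANY finite group with a normal
subgroup `N` isomorphic to the direct product of the wreath products `G i ≀ S_(n i)`.  Then `X` is a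
Galois group over `ℚ` if and only if `X / N` is.
-/

set_option autoImplicit false

open Nfff32c05 Pool.Agent.TH59.WX

theorem Pool.Agent.Results.MP_dadaab_nt.ExtensionsByWreathProducts.result :
    ∀ (ι : Type) [Finite ι] (G : ι → Type) [∀ i, Group (G i)] [∀ i, Finite (G i)]
      [∀ i, Nontrivial (G i)] (n : ι → ℕ), (∀ i, Subgroup.center (G i) = ⊥) →
      (∀ i, ∃ T : Subgroup (MulAut (G i)), IsCompl T (MulAut.conj : G i →* MulAut (G i)).range) →
      (∀ i, ((3 * Nat.card (G i) + 2).factorial) ^ 3 ≤ n i) →
      ∀ (X : Type) [Group X] [Finite X] (N : Subgroup X) [N.Normal],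
        Nonempty (N ≃* (∀ i, (Fin (n i) → G i) ⋊[mulAutArrow] Equiv.Perm (Fin (n i)))) →
        (IsRealizable ℚ X ↔ IsRealizable ℚ (X ⧸ N)) := by
  intro ι _ G _ _ _ n hZ hT hn X _ _ N _ hN
  exact real_prod_hilb hZ hT hn ℚ Pool.Agent.H391R2.T4.hilb_rat X N hN
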