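import Mathlib
import Pool.Agent.TH377.IG.Final

/-!
# Infinite products of wreath products over `ℚ` with prescribed local behaviour at all primes

For a finite group `G` and `n ≥ 0` let `Wr G n = (Fin n → G) ⋊ Perm (Fin n)` be the wreath product
`G ≀ S_n`.  There are integers `n₀(G)`, `C(G)`, depending only on the finite group `G`, such that the
following holds.  Take countably many finite groups `G i`, integers `r i ≤ n i` with
`n₀(G i) + C(G i) r i ≤ n i`, arbitrary finite sets `S i` of primes and arbitrary continuous
homomorphisms `ψ i p : Gal(ℚ̄_p/ℚ_p) → G i ≀ S_(r i)` for `p ∈ S i`, and a number field `M`.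

Then there is a Galois extension `L` of `ℚ` with Galois group `∏ G i ≀ S_(n i)` such that `L` is
totally real, `L` has only rational elements in common with `M` (in every field containing both),
and for every prime `p` there is a decomposition homomorphism `D : Gal(ℚ̄_p/ℚ_p) → Gal(L/ℚ)` whose
`i`-th component acts as `ψ i p` on the first `r i` coordinates and is trivial on the kernel of
`ψ i p` for all `i` with `p ∈ S i`, and is trivial for all but finitely many `i` with `p ∉ S i`.

So the local behaviour is prescribed at all primes at the same time, up to finitely many components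
at each prime.  If `S i = S` does not depend on `i` then the local degrees of `L` at all primes
outside `S` are finite, while at the primes of `S` all components are prescribed.
-/

set_option autoImplicit false

open Pool.Agent.H391R2

namespace Pool.Agent.Results.MP_dadaab_nt.InfiniteProductsLocal

/-- The absolute Galois group of `ℚ_p`. -/
abbrev GalQp (p : ℕ) [Fact p.Prime] : Type :=
  AlgebraicClosure ℚ_[p] ≃ₐ[ℚ_[p]] AlgebraicClosure ℚ_[p]

/-- `x` in `G ≀ S_n = (Fin n → G) ⋊ Perm (Fin n)` preserves the set of the first `r` coordinates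
and acts on them as `y` in `G ≀ S_r`. -/
def ActsAs {G : Type} [Group G] {r n : ℕ} (h : r ≤ n) (x : Wr G n) (y : Wr G r) : Prop :=
  ∀ i : Fin r, x.right (Fin.castLE h i) = Fin.castLE h (y.right i) ∧
    x.left (Fin.castLE h i) = y.left i

/-- `D` is the decomposition homomorphism of the Galois extension `L` of `ℚ` at `p` attached to
the embedding `σ` of `L` into the algebraic closure of `ℚ_p`. -/
def IsDecomp {L : Type} [Field L] [Algebra ℚ L] {p : ℕ} [Fact p.Prime]
    (σ : L →+* AlgebraicClosure ℚ_[p]) (D : GalQp p →* (L ≃ₐ[ℚ] L)) : Prop :=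
  ∀ τ x, σ (D τ x) = τ (σ x)

/-- In every field containing `L` and `M` their common elements are rational. -/
def OnlyRationalInCommon (L M : Type) [Field L] [Algebra ℚ L] [Field M] : Prop :=
  ∀ (X : Type) [Field X] (a : L →+* X) (b : M →+* X) (x : L) (y : M), a x = b y →
    x ∈ (algebraMap ℚ L).range

/-- All components of the isomorphism `e` are continuous. -/
def HasOpenKernels {L ι : Type} [Field L] [Algebra ℚ L] {W : ι → Type} [∀ i, Group (W i)]
    (e : (L ≃ₐ[ℚ] L) ≃* ∀ i, W i) : Prop :=
  ∀ i, IsOpen {s : L ≃ₐ[ℚ] L | e s i = 1}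

/-- For a suitable embedding of `L` into the algebraic closure of `ℚ_p` the decomposition
homomorphism `D` has these components: for all `i` in `I` the `i`-th component acts as `ψ i` on the
first `r i` coordinates and is trivial on the kernel of `ψ i`, and the other components are
trivial, with finitely many exceptions. -/
def LocalCondition {L ι : Type} [Field L] [Algebra ℚ L] {G : ι → Type} [∀ i, Group (G i)]
    {r n : ι → ℕ} (h : ∀ i, r i ≤ n i) (e : (L ≃ₐ[ℚ] L) ≃* ∀ i, Wr (G i) (n i))
    (p : ℕ) [Fact p.Prime] (I : Set ι) (ψ : ∀ i : ι, GalQp p →* Wr (G i) (r i)) : Prop :=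
  ∃ (σ : L →+* AlgebraicClosure ℚ_[p]) (D : GalQp p →* (L ≃ₐ[ℚ] L)), IsDecomp σ D ∧
    (∀ i ∈ I, ∀ τ, ActsAs (h i) (e (D τ) i) (ψ i τ) ∧ (ψ i τ = 1 → e (D τ) i = 1)) ∧
    {i | i ∉ I ∧ ∃ τ, e (D τ) i ≠ 1}.Finite

end Pool.Agent.Results.MP_dadaab_nt.InfiniteProductsLocal

open Pool.Agent.Results.MP_dadaab_nt.InfiniteProductsLocal in
/-- Countable direct products of wreath products over `ℚ`, totally real, disjoint from a given
number field, with prescribed decomposition homomorphisms. -/
theorem Pool.Agent.Results.MP_dadaab_nt.InfiniteProductsLocal.result :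
    ∃ n₀ C : ∀ (G : Type) [Group G], ℕ,
      ∀ (ι : Type) [Countable ι] (G : ι → Type) [∀ i, Group (G i)] [∀ i, Finite (G i)]
        (r n : ι → ℕ) (h : ∀ i, r i ≤ n i), (∀ i, n₀ (G i) + C (G i) * r i ≤ n i) →
        ∀ (S : ι → Finset ℕ) (ψ : ∀ (i : ι) (p : ℕ) [Fact p.Prime], GalQp p →* Wr (G i) (r i)),
          (∀ (i : ι) (p : ℕ) [Fact p.Prime], p ∈ S i →
            IsOpen ((ψ i p).ker : Set (GalQp p))) →
          ∀ (M : Type) [Field M] [NumberField M],
            ∃ (L : Type) (_ : Field L) (_ : Algebra ℚ L) (_ : IsGalois ℚ L)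
              (e : (L ≃ₐ[ℚ] L) ≃* ∀ i, Wr (G i) (n i)),
              HasOpenKernels e ∧ NumberField.IsTotallyReal L ∧ OnlyRationalInCommon L M ∧
              ∀ (p : ℕ) [Fact p.Prime], LocalCondition h e p {i | p ∈ S i} (fun i => ψ i p) :=
  Pool.Agent.TH377.IG.main_thm
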