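import Mathlib
import Pool.Agent.TH15.IGP.Uni

/-!
# Infinite towers of permutational wreath products over `ℚ`

`Wr G n` is the wreath product `G ≀ S_n = (Fin n → G) ⋊ Perm (Fin n)`. For a group `H` acting on a
set `X`, `PermWreath B X H = (X → B) ⋊ H` is the permutational wreath product, where `h` in `H`
sends `f` to `x ↦ f (h⁻¹ x)`.

There is a function `N` on groups such that the following holds. Let `W 0, W 1, W 2, ...` be groups
with `W (k + 1) = PermWreath (G k ≀ S_(n k)) (X k) (W k)` for finite groups `G k`, numbers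
`n k ≥ N (G k)` and arbitrary actions of `W k` on finite sets `X k`. Then every finite Galois
extension `L₀` of `ℚ` with group `W 0` is contained in a Galois extension `L` of `ℚ` whose group is
the inverse limit of the groups `W k`, compatibly with restriction to `L₀`. In particular (take
`L₀ = ℚ`, and all `G k`, `n k` and actions at will) all infinitely iterated permutational wreath
products of groups `G k ≀ S_(n k)` are Galois groups over `ℚ`.
-/

set_option autoImplicit false

open Pool.Agent.H391R2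

namespace Pool.Agent.Results.MP_dadaab_nt.IteratedWreath

/-- The permutational wreath product `(X → B) ⋊ H`, for a group `H` acting on `X`. -/
abbrev PermWreath (B X H : Type) [Group B] [Group H] [MulAction H X] : Type :=
  (X → B) ⋊[mulAutArrow] H

/-- The inverse limit of the sequence `W 0 ← W 1 ← W 2 ← ...`: the group of all sequences `x` with
`p k (x (k + 1)) = x k`. -/
abbrev InvLim {W : ℕ → Type} [∀ k, Group (W k)] (p : ∀ k, W (k + 1) →* W k) : Subgroup (∀ k, W k) :=
  Pool.Agent.TH15.IGP.Lim p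

/-- The defining property of the inverse limit. -/
theorem mem_invLim {W : ℕ → Type} [∀ k, Group (W k)] (p : ∀ k, W (k + 1) →* W k)
    (x : ∀ k, W k) : x ∈ InvLim p ↔ ∀ k, p k (x (k + 1)) = x k := Iff.rfl

/-- The group `H` is the group of a Galois extension of `ℚ` which contains `L₀`, in such a way that
`π : H → Gal(L₀/ℚ)` is the restriction. -/
def RealizedAbove (L₀ : Type) [Field L₀] [NumberField L₀] (H : Type) [Group H]
    (π : H → (L₀ ≃ₐ[ℚ] L₀)) : Prop :=
  ∃ (L : Type) (_ : Field L) (_ : Algebra ℚ L) (_ : Algebra L₀ L) (_ : IsScalarTower ℚ L₀ L)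
    (_ : IsGalois ℚ L) (ε : (L ≃ₐ[ℚ] L) ≃* H),
    ∀ (σ : L ≃ₐ[ℚ] L) (x : L₀), σ (algebraMap L₀ L x) = algebraMap L₀ L (π (ε σ) x)

end Pool.Agent.Results.MP_dadaab_nt.IteratedWreath

open Pool.Agent.Results.MP_dadaab_nt.IteratedWreath in
theorem Pool.Agent.Results.MP_dadaab_nt.IteratedWreath.result :
    ∃ N : ∀ (G : Type) [Group G], ℕ, ∀ (W : ℕ → Type) [∀ k, Group (W k)]
      (G : ℕ → Type) [∀ k, Group (G k)] [∀ k, Finite (G k)] (n : ℕ → ℕ)
      (X : ℕ → Type) [∀ k, Finite (X k)] [∀ k, MulAction (W k) (X k)]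
      (p : ∀ k, W (k + 1) →* W k)
      (e : ∀ k, W (k + 1) ≃* PermWreath (Wr (G k) (n k)) (X k) (W k)),
      (∀ k, N (G k) ≤ n k) → (∀ k x, (e k x).right = p k x) →
      ∀ (L₀ : Type) [Field L₀] [NumberField L₀] [IsGalois ℚ L₀] (e₀ : (L₀ ≃ₐ[ℚ] L₀) ≃* W 0),
        RealizedAbove L₀ (InvLim p) (fun x => e₀.symm (x.1 0)) := by
  refine ⟨fun G _ => Pool.Agent.TH15.IGP.NN G, ?_⟩
  intro W _ G _ _ n X _ _ p e hn hp L₀ _ _ _ e₀
  exact Pool.Agent.TH15.IGP.tower_field ℚ W (fun k => Wr (G k) (n k)) X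
    (fun k => Pool.Agent.TH15.IGP.uni_hil ℚ Pool.Agent.H391R2.T4.hilb_rat (G k) (n k) (hn k))
    p e hp L₀ e₀
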